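import Mathlib
import Pool.Agent.Lib_MP_b3cab1_mus.MSlow
import Pool.Agent.Lib_MP_b3cab1_mus.MComplete

set_option autoImplicit false

/-!
# Musielak-Orlicz sequence spaces: bumps depending locally on finitely many coordinates and
polyhedrality
-/

namespace Pool.Agent.Results.MP_b3cab1_an.MusielakPolyhedral

open Pool.Agent.LibOrlicz (OrliczFunction HasLFCBump IsoPolyhedral)
open Pool.Agent.LibMusielak

/-- For every sequence `M` of nondegenerate Orlicz functions the Musielak-Orlicz sequence space
`h_M` is a separable Banach space; it has a continuous LFC bump function if and only if there are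
no `t i ≥ 0` with `M i (t i) → 0`, `∑ M i (t i) = ∞` and `sup_i M i (K t i) / M i (t i) < ∞` for
every `K`; and in this case `h_M` is isomorphic to a polyhedral space. -/
theorem result (M : ℕ → OrliczFunction) :
    CompleteSpace (MusSeq M) ∧ TopologicalSpace.SeparableSpace (MusSeq M) ∧
    (HasLFCBump (MusSeq M) ↔ ¬ HasSlowSeq M) ∧
    (HasLFCBump (MusSeq M) → IsoPolyhedral (MusSeq M)) :=
  ⟨inferInstance, inferInstance, ⟨fun h hM => not_hasLFCBump hM h, hasLFCBump_of⟩,
    fun h => isoPolyhedral_of fun hM => not_hasLFCBump hM h⟩

end Pool.Agent.Results.MP_b3cab1_an.MusielakPolyhedral
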