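import Mathlib
import Pool.Agent.Lib_MP_b3cab1_pn.Defs
import Pool.Agent.Lib_MP_b3cab1_pn.PNorm

set_option autoImplicit false

/-!
# Unconditional bases: LFC bump functions and `p`-norms, `p < 1`
-/

namespace Pool.Agent.Results.MP_b3cab1_an.PNormLFC

open Pool.Agent.LibOrlicz (HasLFCBump)
open Pool.Agent.LibPNormLFC

/-- Let `X` be a real Banach space with an unconditional Schauder basis `b`. Then `X` has a
continuous LFC bump function if and only if there are `0 < a, c` such that for every `0 < p < 1`
there is a `p`-norm `ρ` on `X` with `a ‖x‖ ≤ ρ x ≤ c ‖x‖` which is monotone in the moduli of the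
coordinates and locally, off `0`, depends only on finitely many coordinates of the basis. -/
theorem result {X : Type} [NormedAddCommGroup X] [NormedSpace ℝ X] [CompleteSpace X]
    (b : UnconditionalSchauderBasis ℕ ℝ X) :
    HasLFCBump X ↔ ∃ a c : ℝ, 0 < a ∧ 0 < c ∧ ∀ p : ℝ, 0 < p → p < 1 →
      ∃ ρ : X → ℝ, IsLocPNorm b p a c ρ := by
  constructor
  · exact exists_pnorm b
  · rintro ⟨a, c, ha, hc, h⟩
    obtain ⟨ρ, hρ⟩ := h (1 / 2) (by norm_num) (by norm_num)
    exact hasLFCBump_of_pnorm (by norm_num) ha hc hρ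

end Pool.Agent.Results.MP_b3cab1_an.PNormLFC
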